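import Pool.Agent.Y110.FJ.Stm2

/-!
# Graph products of groups in the class `C` are in `C`

From the theorem on local quotients of free products: the parabolic subgroup of a clique embeds in
the direct product of the vertex groups of the clique.
-/

set_option autoImplicit false

namespace Pool.Agent.Y50.FJ

open Pool.Agent.Y110.KW Pool.Agent.Y110.FJ Monoid

/-- a finite product of groups in `C` is in `C` -/
theorem pi_mem (C : ∀ (G : Type) [Group G], Prop) (hC : Pool.Agent.Y462.SS.Closed C) {V : Type}
    (A : V → Type) [∀ v, Group (A v)] (hA : ∀ v, C (A v)) (σ : Finset V) :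
    C (∀ v : σ, A v) := by
  classical
  induction σ using Finset.induction_on with
  | empty =>
    refine hC.of_injective _ _ (1 : (∀ v : (∅ : Finset V), A v) →* Multiplicative ℤ) ?_ hC.int
    intro x y _
    funext v
    exact absurd v.2 (Finset.notMem_empty _)
  | insert a s ha ih =>
    let f : (∀ v : (insert a s : Finset V), A v) →* A a × (∀ v : s, A v) :=
      MonoidHom.prod (Pi.evalMonoidHom (fun v : (insert a s : Finset V) => A v)
          ⟨a, Finset.mem_insert_self a s⟩)
        (MonoidHom.pi fun v : s => Pi.evalMonoidHom (fun v : (insert a s : Finset V) => A v)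
          ⟨v.1, Finset.mem_insert_of_mem v.2⟩)
    refine hC.of_injective _ _ f ?_ (hC.prod _ _ (hA a) ih)
    intro x y hxy
    have h1 : x ⟨a, Finset.mem_insert_self a s⟩ = y ⟨a, Finset.mem_insert_self a s⟩ :=
      congrArg Prod.fst hxy
    have h2 : ∀ v : s, x ⟨v.1, Finset.mem_insert_of_mem v.2⟩ =
        y ⟨v.1, Finset.mem_insert_of_mem v.2⟩ := fun v => congrFun (congrArg Prod.snd hxy) v
    funext v
    obtain ⟨v, hv⟩ := v
    rcases Finset.mem_insert.1 hv with h | h
    · subst h
      exact h1
    · exact h2 ⟨v, h⟩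

theorem commRel_eq {V : Type} (Λ : SimpleGraph V) (A : V → Type) [∀ v, Group (A v)] :
    commRel Λ A = graphRel (P := A) Λ := by
  ext r
  constructor
  · rintro ⟨v, w, a, b, h, rfl⟩
    exact ⟨v, w, h, a, b, rfl⟩
  · rintro ⟨v, w, h, a, b, rfl⟩
    exact ⟨v, w, a, b, h, rfl⟩

/-- the parabolic subgroup of a clique -/
theorem para_mem (C : ∀ (G : Type) [Group G], Prop) (hC : Pool.Agent.Y462.SS.Closed C) {V : Type}
    (A : V → Type) [∀ v, Group (A v)] (hA : ∀ v, C (A v)) (Λ : SimpleGraph V) (σ : Finset V)
    (hcl : Λ.IsClique (σ : Set V)) : C ↥(para (graphRel (P := A) Λ) (σ : Set V)) := by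
  classical
  let q : para (graphRel (P := A) Λ) (σ : Set V) →* (∀ v : σ, A v) :=
    MonoidHom.pi fun v => (proj Λ (v : V)).comp (para (graphRel (P := A) Λ) (σ : Set V)).subtype
  have hq : (cliqueHom (P := A) Λ σ hcl).comp q =
      (para (graphRel (P := A) Λ) (σ : Set V)).subtype := by
    let c : GP A Λ →* GP A Λ := (cliqueHom (P := A) Λ σ hcl).comp
      (MonoidHom.pi fun v : σ => proj Λ (v : V))
    have hc : para (graphRel (P := A) Λ) (σ : Set V) ≤ c.eqLocus (MonoidHom.id _) := by
      apply iSup₂_le
      rintro v hv _ ⟨x, rfl⟩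
      change cliqueHom (P := A) Λ σ hcl (fun w : σ => proj Λ (w : V) (fac (graphRel Λ) v x)) =
        fac (graphRel Λ) v x
      have e : (fun w : σ => proj Λ (w : V) (fac (graphRel Λ) v x)) =
          Pi.mulSingle (⟨v, hv⟩ : σ) x := by
        funext w
        by_cases hw : w = (⟨v, hv⟩ : σ)
        · subst hw
          rw [Pi.mulSingle_eq_same]
          exact proj_fac_self Λ v x
        · rw [Pi.mulSingle_eq_of_ne hw]
          exact proj_fac_ne Λ (fun h => hw (Subtype.ext h.symm)) x
      rw [e]
      exact MonoidHom.noncommPiCoprod_mulSingle _ _ _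
    refine MonoidHom.ext fun g => ?_
    exact hc g.2
  refine hC.of_injective _ _ q ?_ (pi_mem C hC A hA σ)
  intro x y hxy
  have h1 := DFunLike.congr_fun hq x
  have h2 := DFunLike.congr_fun hq y
  have h3 : (cliqueHom (P := A) Λ σ hcl) (q x) = (cliqueHom (P := A) Λ σ hcl) (q y) := by
    rw [hxy]
  exact Subtype.ext (h1.symm.trans (h3.trans h2))

theorem t_gp (h : S_LOC) : S_GP := by
  intro C hC V Λ A _ hA
  have h1 : C (Quo (graphRel (P := A) Λ)) := by
    refine h C hC V A (graphRel Λ) (graphRel_local Λ) fun σ hσ => ?_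
    refine para_mem C hC.base A hA Λ σ ?_
    intro a ha b hb hab
    exact graphRel_linked Λ hab (hσ a ha b hb hab)
  rw [← commRel_eq] at h1
  exact h1

end Pool.Agent.Y50.FJ
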